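import Mathlib
import Pool.Agent.U916.KF.Spec

set_option autoImplicit false

/-!
# Fibonacci-like and Lucas-like numbers with exactly `k` prime factors

Let `φ = (1 + √5) / 2`, `ψ = (1 - √5) / 2` and `T α β B n = β α ^ n + B ψ ^ n`.  The Fibonacci
numbers are `T φ (1 / √5) (-1 / √5)`, the Lucas numbers `T φ 1 1`.  For a prime `p` let `W α β B p`
be the `p`-rough part (the product, with multiplicity, of the prime factors larger than `p`) of
`⌊T α β B p⌋`.  For the Fibonacci and the Lucas numbers this is the number with the index `p`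
itself, for all primes `p > 5`.  Let `N k α β B n` be the number of primes `p ≤ n` for which
`W α β B p` has exactly `k` prime factors, counted with multiplicity; `k = 1` is the counting
function of the question.

We prove that for every real `B` and for Lebesgue almost every pair `(α, β)` with `α > 1`, `β > 0`,
for all `k ≥ 1` at once, `N k α β B n ~ e ^ γ (log n) ^ k / (k! log α)`.
-/

namespace Pool.Agent.Results.MP_5893d7_nt.KPrimeFactors

open Filter Topology MeasureTheory
open ArithmeticFunction (cardFactors)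

/-- The Lucas numbers. -/
def L : ℕ → ℕ
  | 0 => 2
  | 1 => 1
  | (n + 2) => L (n + 1) + L n

/-- The golden ratio. -/
noncomputable def φ : ℝ := (1 + Real.sqrt 5) / 2

/-- The conjugate of the golden ratio. -/
noncomputable def ψ : ℝ := (1 - Real.sqrt 5) / 2

/-- The sequences `β α ^ n + B ψ ^ n`. -/
noncomputable def T (α β B : ℝ) (n : ℕ) : ℝ := β * α ^ n + B * ψ ^ n

/-- The product, with multiplicity, of the prime factors of `m` that are larger than `p`. -/
def roughPart (p m : ℕ) : ℕ := (m.primeFactorsList.filter (fun r => p < r)).prod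

/-- The `p`-rough part of `⌊T α β B p⌋`. -/
noncomputable def W (α β B : ℝ) (p : ℕ) : ℕ := roughPart p ⌊T α β B p⌋₊

/-- The number of primes `p ≤ n` for which `W α β B p` has exactly `k` prime factors, counted with
multiplicity. -/
noncomputable def N (k : ℕ) (α β B : ℝ) (n : ℕ) : ℕ :=
  ((Finset.range (n + 1)).filter (fun p => p.Prime ∧ cardFactors (W α β B p) = k)).card

lemma sqrt5_sq : Real.sqrt 5 ^ 2 = 5 := Real.sq_sqrt (by norm_num)

lemma sqrt5_pos : 0 < Real.sqrt 5 := Real.sqrt_pos.2 (by norm_num)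

lemma phi_sq : φ ^ 2 = φ + 1 := by unfold φ; nlinarith [sqrt5_sq]

lemma psi_sq : ψ ^ 2 = ψ + 1 := by unfold ψ; nlinarith [sqrt5_sq]

lemma phi_add : φ + ψ = 1 := by unfold φ ψ; ring

lemma abs_psi : |ψ| ≤ 1 := by
  have h := sqrt5_sq
  have h0 := sqrt5_pos
  unfold ψ
  rw [abs_le]
  constructor <;> nlinarith

lemma T_rec (β B : ℝ) (n : ℕ) : T φ β B (n + 2) = T φ β B (n + 1) + T φ β B n := by
  unfold T
  rw [pow_add φ n 2, pow_add ψ n 2, phi_sq, psi_sq]
  ring

/-- the Fibonacci numbers -/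
lemma T_fib (n : ℕ) : T φ (1 / Real.sqrt 5) (-(1 / Real.sqrt 5)) n = (Nat.fib n : ℝ) := by
  induction n using Nat.twoStepInduction with
  | zero => unfold T; simp
  | one =>
    have := sqrt5_pos.ne'
    unfold T φ ψ
    rw [Nat.fib_one]
    field_simp
    push_cast
    ring
  | more n h1 h2 =>
    rw [T_rec, h1, h2, Nat.fib_add_two]
    push_cast
    ring

/-- the Lucas numbers -/
lemma T_luc (n : ℕ) : T φ 1 1 n = (L n : ℝ) := by
  induction n using Nat.twoStepInduction with
  | zero => unfold T; norm_num [L]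
  | one =>
    have h : T φ 1 1 1 = φ + ψ := by unfold T; ring
    rw [h, phi_add]
    norm_num [L]
  | more n h1 h2 =>
    rw [T_rec, h1, h2]
    show _ = ((L (n + 1) + L n : ℕ) : ℝ)
    push_cast
    ring

lemma fib_eq (n : ℕ) : Pool.Agent.H447R2.ML.U 1 n = Nat.fib n := by
  induction n using Nat.twoStepInduction with
  | zero => rfl
  | one => rfl
  | more n h1 h2 =>
    rw [Pool.Agent.H447R2.ML.U_add_two, h1, h2, Nat.fib_add_two]
    ring

lemma luc_eq (n : ℕ) : Pool.Agent.H447R2.ML.V 1 n = L n := by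
  induction n using Nat.twoStepInduction with
  | zero => rfl
  | one => rfl
  | more n h1 h2 =>
    show _ = L (n + 1) + L n
    rw [Pool.Agent.H447R2.ML.V_add_two, h1, h2]
    ring

/-- The Fibonacci numbers. -/
lemma W_fib {p : ℕ} (hp : p.Prime) (h5 : 5 < p) :
    W φ (1 / Real.sqrt 5) (-(1 / Real.sqrt 5)) p = Nat.fib p := by
  have hd : ¬ p ∣ 1 ^ 2 + 4 := by
    intro h
    have := Nat.le_of_dvd (by norm_num) h
    omega
  have h := Pool.Agent.H447R2.ML.rough_U 1 one_pos hp (by omega) hd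
    (x := T φ (1 / Real.sqrt 5) (-(1 / Real.sqrt 5)) p) (by rw [T_fib, fib_eq])
  rw [fib_eq] at h
  exact h

/-- The Lucas numbers. -/
lemma W_luc {p : ℕ} (hp : p.Prime) (h5 : 5 < p) : W φ 1 1 p = L p := by
  have hd : ¬ p ∣ 1 := fun h => hp.one_lt.ne' (Nat.dvd_one.1 h)
  have h : Pool.Agent.H305R2.roughPart p ⌊T φ 1 1 p⌋₊ = L p := by
    rw [T_luc, Nat.floor_natCast]
    refine Pool.Agent.H447R2.ML.roughPart_eq_self ?_ fun q hq h => ?_
    · rw [← luc_eq]
      exact (Pool.Agent.H447R2.ML.V_pos 1 p one_pos).ne'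
    · rw [← luc_eq] at h
      exact Pool.Agent.H447R2.ML.lt_of_dvd_V 1 hp (by omega) hd hq
        (fun h' => hq.one_lt.ne' (Nat.dvd_one.1 h')) h
  exact h

theorem result :
    -- the Fibonacci and the Lucas numbers are members of the family
    (∀ n : ℕ, T φ (1 / Real.sqrt 5) (-(1 / Real.sqrt 5)) n = Nat.fib n ∧ T φ 1 1 n = L n) ∧
    (∀ p : ℕ, p.Prime → 5 < p →
      W φ (1 / Real.sqrt 5) (-(1 / Real.sqrt 5)) p = Nat.fib p ∧ W φ 1 1 p = L p) ∧
    -- the law at almost every pair, for all `k` at once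
    (∀ B : ℝ, ∀ᵐ z : ℝ × ℝ, 1 < z.1 → 0 < z.2 → ∀ k : ℕ, 1 ≤ k →
      Tendsto (fun n : ℕ => (N k z.1 z.2 B n : ℝ) / Real.log n ^ k) atTop
        (𝓝 (Real.exp Real.eulerMascheroniConstant / (k.factorial * Real.log z.1)))) := by
  refine ⟨fun n => ⟨T_fib n, T_luc n⟩, fun p hp h5 => ⟨W_fib hp h5, W_luc hp h5⟩, fun B => ?_⟩
  have h := Pool.Agent.U916.KF.law' (g := fun p => B * ψ ^ p) (κ := 1) (C := |B|) le_rfl
    (by
      intro p
      rw [abs_mul, one_pow, mul_one, abs_pow]
      exact mul_le_of_le_one_right (abs_nonneg _) (pow_le_one₀ (abs_nonneg _) abs_psi))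
  filter_upwards [h] with z hz h1 h2 k hk
  exact hz h1 h2 k hk

end Pool.Agent.Results.MP_5893d7_nt.KPrimeFactors
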