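import Mathlib
import Pool.Agent.H447R2.ML.Spec
import Pool.Agent.U776.PG.G5

set_option autoImplicit false

/-!
# Primes in a random solution of the Fibonacci recurrence: convergence in law to Poisson variables

The real solutions of `T (n + 2) = T (n + 1) + T n` are the sequences
`T β B n = β φ ^ n + B ψ ^ n` with `φ = (1 + √5) / 2`, `ψ = (1 - √5) / 2`; the Fibonacci numbers are
the solution with `β = 1 / √5`, `B = -1 / √5`, the Lucas numbers the one with `β = B = 1`.  For a
prime `p` let `W β B p` be the `p`-rough part (the product, with multiplicity, of the prime factors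
larger than `p`) of `⌊T β B p⌋`.  For the Fibonacci and the Lucas numbers this is the number with the
index `p` itself, for all primes `p > 5`.  Call `p` good if `W β B p` is prime.

The heuristic for primes among the Fibonacci numbers is a Poisson model: the numbers of good indices in
disjoint sets of primes should be asymptotically independent Poisson variables, and the expected number
in a finite set `S` of primes should be `κ * V S`, `V S = ∑_{p ∈ S} log p / p`, `κ = e ^ γ / log φ`.

We prove this for a random solution.  Let the pair `(β, B)` have any probability law on the plane for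
which `β > 0` almost surely and the law of `β` is absolutely continuous (`B` may be constant, or a
function of `β`, or depend on it in any other way).  Let `S n i`, `i` in a finite index set, be disjoint
finite sets of primes whose least elements tend to infinity as `n → ∞`, thin (the part of `S n i` in a
dyadic interval `(x, 2 x]` has weight `V` tending to zero, uniformly in `x`; there is no condition on
the gaps between the primes), with `V (S n i) → v i`.  Then the numbers of good indices in the sets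
`S n i` converge jointly in law to independent Poisson variables with the parameters `κ * v i`.
-/

namespace Pool.Agent.Results.MP_5893d7_nt.PoissonLimit

open Filter Topology MeasureTheory

/-- The Lucas numbers. -/
def L : ℕ → ℕ
  | 0 => 2
  | 1 => 1
  | (n + 2) => L (n + 1) + L n

/-- The golden ratio. -/
noncomputable def φ : ℝ := (1 + Real.sqrt 5) / 2

/-- The conjugate of the golden ratio. -/
noncomputable def ψ : ℝ := (1 - Real.sqrt 5) / 2

/-- The real solutions of the Fibonacci recurrence. -/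
noncomputable def T (β B : ℝ) (n : ℕ) : ℝ := β * φ ^ n + B * ψ ^ n

/-- The product, with multiplicity, of the prime factors of `m` that are larger than `p`. -/
def roughPart (p m : ℕ) : ℕ := (m.primeFactorsList.filter (fun r => p < r)).prod

/-- The `p`-rough part of `⌊T β B p⌋`. -/
noncomputable def W (β B : ℝ) (p : ℕ) : ℕ := roughPart p ⌊T β B p⌋₊

/-- The number of the `p` in the finite set `S` for which `W β B p` is prime. -/
noncomputable def N (S : Finset ℕ) (β B : ℝ) : ℕ := (S.filter (fun p => (W β B p).Prime)).card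

/-- The weight `∑_{p ∈ S} log p / p` of a finite set. -/
noncomputable def V (S : Finset ℕ) : ℝ := ∑ p ∈ S, Real.log p / p

/-- The constant `e ^ γ / log φ`. -/
noncomputable def κ : ℝ := Real.exp Real.eulerMascheroniConstant / Real.log φ

/-- The weights of the Poisson law with the parameter `lam`. -/
noncomputable def pois (lam : ℝ) (k : ℕ) : ℝ := Real.exp (-lam) * lam ^ k / k.factorial

/-- `S 0, S 1, …` are families (indexed by `ι`) of pairwise disjoint finite sets of primes; the weight
of the part in a dyadic interval tends to zero, uniformly in the interval; the least elements tend to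
infinity. -/
structure Thin {ι : Type} (S : ℕ → ι → Finset ℕ) : Prop where
  prime : ∀ n i, ∀ p ∈ S n i, p.Prime
  disjoint : ∀ n i j, i ≠ j → Disjoint (S n i) (S n j)
  dyadic : ∀ δ : ℝ, 0 < δ → ∀ᶠ n in atTop, ∀ i, ∀ x : ℕ,
    V ((S n i).filter (fun p => x < p ∧ p ≤ 2 * x)) ≤ δ
  large : ∀ M : ℕ, ∀ᶠ n in atTop, ∀ i, ∀ p ∈ S n i, M ≤ p

lemma sqrt5_sq : Real.sqrt 5 ^ 2 = 5 := Real.sq_sqrt (by norm_num)

lemma sqrt5_pos : 0 < Real.sqrt 5 := Real.sqrt_pos.2 (by norm_num)

lemma one_lt_phi : 1 < φ := by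
  unfold φ
  nlinarith [sqrt5_sq, sqrt5_pos]

lemma phi_add : φ + ψ = ((1 : ℤ) : ℝ) := by unfold φ ψ; push_cast; ring

lemma phi_mul : φ * ψ = -1 := by unfold φ ψ; nlinarith [sqrt5_sq]

lemma phi_sq : φ ^ 2 = φ + 1 := by unfold φ; nlinarith [sqrt5_sq]

lemma psi_sq : ψ ^ 2 = ψ + 1 := by unfold ψ; nlinarith [sqrt5_sq]

lemma T_rec (β B : ℝ) (n : ℕ) : T β B (n + 2) = T β B (n + 1) + T β B n := by
  unfold T
  rw [pow_add φ n 2, pow_add ψ n 2, phi_sq, psi_sq]
  ring

lemma T_zero (β B : ℝ) : T β B 0 = β + B := by unfold T; ring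

lemma T_one (β B : ℝ) : T β B 1 = β * φ + B * ψ := by unfold T; ring

/-- the Fibonacci numbers -/
lemma T_fib (n : ℕ) : T (1 / Real.sqrt 5) (-(1 / Real.sqrt 5)) n = (Nat.fib n : ℝ) := by
  induction n using Nat.twoStepInduction with
  | zero => rw [T_zero]; simp
  | one =>
    rw [T_one]
    have := sqrt5_pos.ne'
    unfold φ ψ
    rw [Nat.fib_one]
    field_simp
    push_cast
    ring
  | more n h1 h2 =>
    rw [T_rec, h1, h2, Nat.fib_add_two]
    push_cast
    ring

/-- the Lucas numbers -/
lemma T_luc (n : ℕ) : T 1 1 n = (L n : ℝ) := by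
  induction n using Nat.twoStepInduction with
  | zero => rw [T_zero]; norm_num [L]
  | one =>
    rw [T_one, one_mul, one_mul, phi_add]
    norm_num [L]
  | more n h1 h2 =>
    rw [T_rec, h1, h2]
    show _ = ((L (n + 1) + L n : ℕ) : ℝ)
    push_cast
    ring

lemma fib_eq (n : ℕ) : Pool.Agent.H447R2.ML.U 1 n = Nat.fib n := by
  induction n using Nat.twoStepInduction with
  | zero => rfl
  | one => rfl
  | more n h1 h2 =>
    rw [Pool.Agent.H447R2.ML.U_add_two, h1, h2, Nat.fib_add_two]
    ring

lemma luc_eq (n : ℕ) : Pool.Agent.H447R2.ML.V 1 n = L n := by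
  induction n using Nat.twoStepInduction with
  | zero => rfl
  | one => rfl
  | more n h1 h2 =>
    show _ = L (n + 1) + L n
    rw [Pool.Agent.H447R2.ML.V_add_two, h1, h2]
    ring

/-- The Fibonacci numbers. -/
lemma W_fib {p : ℕ} (hp : p.Prime) (h5 : 5 < p) :
    W (1 / Real.sqrt 5) (-(1 / Real.sqrt 5)) p = Nat.fib p := by
  have hd : ¬ p ∣ 1 ^ 2 + 4 := by
    intro h
    have := Nat.le_of_dvd (by norm_num) h
    omega
  have h := Pool.Agent.H447R2.ML.rough_U 1 one_pos hp (by omega) hd
    (x := T (1 / Real.sqrt 5) (-(1 / Real.sqrt 5)) p) (by rw [T_fib, fib_eq])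
  rw [fib_eq] at h
  exact h

/-- The Lucas numbers. -/
lemma W_luc {p : ℕ} (hp : p.Prime) (h5 : 5 < p) : W 1 1 p = L p := by
  have hd : ¬ p ∣ 1 := fun h => hp.one_lt.ne' (Nat.dvd_one.1 h)
  have h : Pool.Agent.H305R2.roughPart p ⌊T 1 1 p⌋₊ = L p := by
    rw [T_luc, Nat.floor_natCast]
    refine Pool.Agent.H447R2.ML.roughPart_eq_self ?_ fun q hq h => ?_
    · rw [← luc_eq]
      exact (Pool.Agent.H447R2.ML.V_pos 1 p one_pos).ne'
    · rw [← luc_eq] at h
      exact Pool.Agent.H447R2.ML.lt_of_dvd_V 1 hp (by omega) hd hq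
        (fun h' => hq.one_lt.ne' (Nat.dvd_one.1 h')) h
  exact h

lemma psi_lt : |ψ| < 1 := by
  have h1 := sqrt5_sq
  have h2 := sqrt5_pos
  unfold ψ
  rw [abs_lt]
  constructor <;> nlinarith

/-- the numbers of good indices of the solution and of the amplitude -/
lemma N_eq {β B : ℝ} {m : ℕ}
    (h : ∀ p ≥ m, ⌊β * Real.goldenRatio ^ p + B * ψ ^ p⌋₊ = ⌊β * Real.goldenRatio ^ p + 0⌋₊)
    {S : Finset ℕ} (hS : ∀ p ∈ S, m ≤ p) :
    N S β B = Pool.Agent.U776.PL.NE (Pool.Agent.U776.PG.Er Real.goldenRatio) S β := by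
  unfold N Pool.Agent.U776.PL.NE
  refine congrArg Finset.card (Finset.ext fun p => ?_)
  simp only [Finset.mem_filter]
  refine and_congr_right fun hp => ?_
  have h1 := h p (hS p hp)
  rw [add_zero] at h1
  have h2 : W β B p = Pool.Agent.H305R2.roughPart p ⌊β * Real.goldenRatio ^ p⌋₊ := by
    rw [← h1]
    rfl
  rw [h2]
  rfl

/-- the indices of a prime of the sets are measurable events of the solution -/
lemma N_measurable (S : Finset ℕ) : Measurable (fun z : ℝ × ℝ => N S z.1 z.2) := by
  have e : (fun z : ℝ × ℝ => N S z.1 z.2) = fun z => ∑ p ∈ S, if (W z.1 z.2 p).Prime then 1 else 0 := by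
    funext z
    unfold N
    rw [Finset.card_filter]
  rw [e]
  refine Finset.measurable_sum _ fun p _ => ?_
  refine Measurable.ite ?_ measurable_const measurable_const
  have h1 : Measurable (fun z : ℝ × ℝ => ⌊T z.1 z.2 p⌋₊) := by
    refine Nat.measurable_floor.comp ?_
    unfold T
    fun_prop
  exact h1 (MeasurableSet.of_discrete (s := {m : ℕ | (roughPart p m).Prime}))

open Classical in
/-- The special values; the convergence in law. -/
theorem result :
    (∀ n : ℕ, T (1 / Real.sqrt 5) (-(1 / Real.sqrt 5)) n = Nat.fib n ∧ T 1 1 n = L n) ∧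
    (∀ p : ℕ, p.Prime → 5 < p →
      W (1 / Real.sqrt 5) (-(1 / Real.sqrt 5)) p = Nat.fib p ∧ W 1 1 p = L p) ∧
    (∀ (ι : Type) [Fintype ι] (S : ℕ → ι → Finset ℕ) (v : ι → ℝ), Thin S →
      (∀ i, Tendsto (fun n => V (S n i)) atTop (𝓝 (v i))) →
      ∀ μ : Measure (ℝ × ℝ), IsProbabilityMeasure μ → μ.map Prod.fst ≪ volume →
      (∀ᵐ z ∂μ, 0 < z.1) → ∀ k : ι → ℕ,
      Tendsto (fun n => μ.real {z : ℝ × ℝ | ∀ i, N (S n i) z.1 z.2 = k i}) atTop
        (𝓝 (∏ i, pois (κ * v i) (k i)))) := by
  refine ⟨fun n => ⟨T_fib n, T_luc n⟩, fun p hp h5 => ⟨W_fib hp h5, W_luc hp h5⟩, ?_⟩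
  intro ι _ S v hS hv μ hμ hac hpos k
  obtain ⟨Λ, A, P, C, c0, H⟩ := Pool.Agent.U776.PG.qm_gold
  have hm1 : Measurable (Prod.fst : ℝ × ℝ → ℝ) := measurable_fst
  have : IsProbabilityMeasure (μ.map (Prod.fst : ℝ × ℝ → ℝ)) :=
    Measure.isProbabilityMeasure_map hm1.aemeasurable
  set E := Pool.Agent.U776.PG.Er Real.goldenRatio with hE
  have hEm : ∀ p, MeasurableSet (E p) := Pool.Agent.U776.PG.Er_measurable _
  have hset : ∀ n, MeasurableSet {β : ℝ | ∀ i, Pool.Agent.U776.PL.NE E (S n i) β = k i} := by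
    intro n
    have e : {β : ℝ | ∀ i, Pool.Agent.U776.PL.NE E (S n i) β = k i} =
        ⋂ i, {β : ℝ | Pool.Agent.U776.PL.NE E (S n i) β = k i} := by
      ext β
      simp
    rw [e]
    exact MeasurableSet.iInter fun i =>
      Pool.Agent.U776.PL.NE_measurable hEm (S n i) (measurableSet_singleton (k i))
  have h := Pool.Agent.U776.PG.annealed H
    (T := S) ⟨hS.disjoint, hS.large, hS.dyadic⟩ (lam := fun i => κ * v i)
    (fun i => (hv i).const_mul κ) (μ.map Prod.fst) hac
    (by
      rw [ae_map_iff hm1.aemeasurable measurableSet_Ioi]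
      exact hpos) k
  have h' : Tendsto (fun n => μ.real
      {z : ℝ × ℝ | ∀ i, Pool.Agent.U776.PL.NE E (S n i) z.1 = k i}) atTop
      (𝓝 (∏ i, pois (κ * v i) (k i))) := by
    refine h.congr fun n => ?_
    rw [measureReal_def, Measure.map_apply hm1 (hset n)]
    rfl
  refine Pool.Agent.U776.PG.real_congr (fun n => ?_) (fun n => hm1 (hset n)) ?_ h'
  · have e : {z : ℝ × ℝ | ∀ i, N (S n i) z.1 z.2 = k i} =
        ⋂ i, {z : ℝ × ℝ | N (S n i) z.1 z.2 = k i} := by
      ext z
      simp
    rw [e]
    exact MeasurableSet.iInter fun i => N_measurable (S n i) (measurableSet_singleton (k i))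
  · have h2 : ∀ᵐ z ∂μ, 0 < z.1 → ∀ ψ : ℝ, |ψ| < 1 → ∀ B : ℝ, ∀ᶠ p : ℕ in atTop,
        ⌊z.1 * Real.goldenRatio ^ p + B * ψ ^ p⌋₊ = ⌊z.1 * Real.goldenRatio ^ p + 0⌋₊ :=
      ae_of_ae_map hm1.aemeasurable
        (hac.ae_le (Pool.Agent.N176.GW.floor_ae Real.one_lt_goldenRatio))
    filter_upwards [h2, hpos] with z h2 h0
    obtain ⟨m, hm⟩ := eventually_atTop.1 (h2 h0 ψ psi_lt z.2)
    filter_upwards [hS.large m] with n hn
    have h5 : ∀ i : ι, N (S n i) z.1 z.2 = Pool.Agent.U776.PL.NE E (S n i) z.1 :=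
      fun i => N_eq hm (hn i)
    simp only [Set.mem_ofPred_eq, h5, Set.mem_preimage]

end Pool.Agent.Results.MP_5893d7_nt.PoissonLimit
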