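import Mathlib
import Pool.Agent.U310.Mers.Fib
import Pool.Agent.U310.Mers.Sparse

set_option autoImplicit false

/-!
# Fibonacci and Lucas numbers in random models of the primes with a sieve

The question is whether infinitely many Fibonacci numbers `U_n`, and infinitely many Lucas numbers `V_n`, are
prime; a prime `U_n` with `n ≠ 4` has a prime index, a prime `V_n` has a prime index or `n` is a power of two or
zero.  We answer both questions in random models of the primes: the natural numbers are decided one after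
the other, no `m` with a prime factor at most `z(m)` is chosen, and the conditional probability of choosing
`m + 1` (without prime factors at most `z(m + 1)`) given the past is asymptotic to
`∏_{q ≤ z(m + 1)} (1 - 1/q)⁻¹ / log m`.  No independence and no rate is assumed.
-/

open MeasureTheory Filter
open scoped Topology

namespace Pool.Agent.Results.MP_5893d7_nt.RandomSieveModels

/-- `∏_{q ≤ x} (1 - 1/q)⁻¹`, `q` prime -/
noncomputable def W (x : ℕ) : ℝ := ∏ q ∈ (Finset.Icc 1 x).filter Nat.Prime, (1 - (q : ℝ)⁻¹)⁻¹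

/-- `m` has no prime factor at most `z m` -/
def Rough (z : ℕ → ℕ) (m : ℕ) : Prop := ∀ q, q.Prime → q ≤ z m → ¬ q ∣ m

/-- A random model of the primes with sieve level `z`.  `S n` is the event that `n` is chosen; it is adapted
to the filtration `ℱ`; no `n` with a prime factor at most `z n` is chosen; almost surely the conditional
probability of `S (n + 1)` given `ℱ n`, times `log n / W (z (n + 1))`, tends to `1` along the `n` for which
`n + 1` has no prime factor at most `z (n + 1)`. -/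
structure Model {Ω : Type} [mΩ : MeasurableSpace Ω] (μ : Measure Ω) (ℱ : Filtration ℕ mΩ)
    (S : ℕ → Set Ω) (z : ℕ → ℕ) : Prop where
  adapted : ∀ n, MeasurableSet[ℱ n] (S n)
  sieved : ∀ n, ¬ Rough z n → S n = ∅
  density : ∀ᵐ ω ∂μ, Tendsto (fun n : ℕ =>
    (μ[(S (n + 1)).indicator (fun _ => (1 : ℝ)) | ℱ n]) ω * Real.log n / W (z (n + 1)))
    (atTop ⊓ 𝓟 {n : ℕ | Rough z (n + 1)}) (𝓝 1)

/-- the Lucas numbers -/
def V : ℕ → ℕ
  | 0 => 2
  | 1 => 1
  | (n + 2) => V (n + 1) + V n

/-- the number of primes `p ≤ n` in `E` with `D p ∈ S` -/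
noncomputable def N (D : ℕ → ℕ) (S E : Set ℕ) (n : ℕ) : ℕ := {p | p ≤ n ∧ p.Prime ∧ p ∈ E ∧ D p ∈ S}.ncard

open Classical in
/-- `∑ log p / p` over the primes `p ≤ n` in `E` -/
noncomputable def L (E : Set ℕ) (n : ℕ) : ℝ :=
  ∑ p ∈ (Finset.Icc 1 n).filter (fun p => p.Prime ∧ p ∈ E), Real.log p / p

lemma V_eq : V = Pool.Agent.U310.Mers.luc := by
  funext n
  induction n using Nat.strong_induction_on with
  | _ n ih =>
    match n with
    | 0 => rfl
    | 1 => rfl
    | (n + 2) =>
      show V (n + 1) + V n = Pool.Agent.U310.Mers.luc (n + 1) + Pool.Agent.U310.Mers.luc n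
      rw [ih n (by omega), ih (n + 1) (by omega)]

/-- **Fibonacci and Lucas numbers in random models with a sieve.**  Let `D` be the sequence of the Fibonacci
numbers or the sequence of the Lucas numbers, and `φ` the golden ratio.

(1) For almost all primes `p` (in the sense of relative density) `D_p` has no prime factor
`q ≤ g(p) p log p`, for every `g → 0`.  (This concerns the actual numbers.)

Consider a random model with sieve level `z`, `log z(m) / log log m → θ > 0`.

(2) Let `z(m) ≤ τ log m` for all large `m`, `τ log φ < 2`.  For every set `E` of indices: if the sum of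
`log p / p` over the primes `p` in `E` diverges, then almost surely the number of primes `p ≤ n` in `E` with `D_p`
chosen is asymptotic to `(θ e ^ γ / log φ) ∑ log p / p`, the sum over the primes `p ≤ n` in `E`; if the sum
converges, then almost surely only finitely many `D_p`, `p` a prime in `E`, are chosen.

(3) Let `z(m) / (log m log log m) → 0`.  If `E` has relative logarithmic density `d` in the primes, then almost
surely the number of primes `p ≤ n` in `E` with `D_p` chosen, divided by `log n`, tends to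
`d θ e ^ γ / log φ`; in particular the number of all primes `p ≤ n` with `D_p` chosen, divided by `log n`,
tends to `θ e ^ γ / log φ`.

(4) Almost surely only finitely many of the Lucas numbers `V_{2 ^ k}` are chosen. -/
theorem result (D : ℕ → ℕ) (hD : D = Nat.fib ∨ D = V) :
    -- (1)
    (∀ g : ℕ → ℝ, Tendsto g atTop (𝓝 0) →
      Tendsto (fun n : ℕ => ({p : ℕ | p ≤ n ∧ p.Prime ∧ ∃ q : ℕ, q.Prime ∧ q ∣ D p ∧
        (q : ℝ) ≤ g p * (p * Real.log p)}.ncard : ℝ) / (n / Real.log n)) atTop (𝓝 0)) ∧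
    ∀ {Ω : Type} [mΩ : MeasurableSpace Ω] (μ : Measure Ω) [IsProbabilityMeasure μ]
      (ℱ : Filtration ℕ mΩ) (S : ℕ → Set Ω) (z : ℕ → ℕ) (_ : Model μ ℱ S z) (θ : ℝ) (_ : 0 < θ)
      (_ : Tendsto (fun m : ℕ => Real.log (z m) / Real.log (Real.log m)) atTop (𝓝 θ)),
    -- (2)
    (∀ τ : ℝ, 0 ≤ τ → τ * Real.log Real.goldenRatio < 2 → (∀ᶠ m : ℕ in atTop, (z m : ℝ) ≤ τ * Real.log m) →
      ∀ E : Set ℕ,
        (Tendsto (L E) atTop atTop →
          ∀ᵐ ω ∂μ, Tendsto (fun n => (N D {k | ω ∈ S k} E n : ℝ) /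
            (θ * Real.exp Real.eulerMascheroniConstant / Real.log Real.goldenRatio * L E n)) atTop (𝓝 1)) ∧
        ((∃ C : ℝ, ∀ n, L E n ≤ C) → ∀ᵐ ω ∂μ, {p | p.Prime ∧ p ∈ E ∧ ω ∈ S (D p)}.Finite)) ∧
    -- (3)
    (Tendsto (fun m : ℕ => (z m : ℝ) / (Real.log m * Real.log (Real.log m))) atTop (𝓝 0) →
      (∀ (E : Set ℕ) (d : ℝ), Tendsto (fun n => L E n / Real.log n) atTop (𝓝 d) →
        ∀ᵐ ω ∂μ, Tendsto (fun n : ℕ => (N D {k | ω ∈ S k} E n : ℝ) / Real.log n) atTop
          (𝓝 (θ * Real.exp Real.eulerMascheroniConstant / Real.log Real.goldenRatio * d))) ∧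
      ∀ᵐ ω ∂μ, Tendsto (fun n : ℕ => ({p : ℕ | p ≤ n ∧ p.Prime ∧ ω ∈ S (D p)}.ncard : ℝ) / Real.log n) atTop
          (𝓝 (θ * Real.exp Real.eulerMascheroniConstant / Real.log Real.goldenRatio))) ∧
    -- (4)
    (∀ᵐ ω ∂μ, {k : ℕ | ω ∈ S (V (2 ^ k))}.Finite) := by
  have hX : Pool.Agent.U310.Mers.Expo D (Real.log Real.goldenRatio) := by
    rcases hD with rfl | rfl
    · exact Pool.Agent.U310.Mers.fib_expo
    · rw [V_eq]
      exact Pool.Agent.U310.Mers.luc_expo
  refine ⟨fun g hg => Pool.Agent.U310.Mers.galmost hX g hg, ?_⟩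
  intro Ω mΩ μ hμ ℱ S z hM θ hθ hz
  have hW' := Pool.Agent.U310.Mers.W_small z θ hθ hz
  have hprof : ∀ᵐ ω ∂μ, ∀ ε : ℝ, 0 < ε → ∀ᶠ n : ℕ in atTop,
        |Pool.Agent.R528.RM.dens μ ℱ S n ω - Pool.Agent.U310.Mers.rho1 z (n + 1)| ≤
          ε * Pool.Agent.U310.Mers.rho1 z (n + 1) :=
    Pool.Agent.U310.Mers.profile z hW' hM.sieved hM.density
  refine ⟨?_, ?_, ?_⟩
  · intro τ hτ hτc hzτ E
    exact ⟨fun h => Pool.Agent.U310.Mers.gtau_inf hM.adapted hX z θ hθ hz hprof τ hτ hτc hzτ E h,
      fun h => Pool.Agent.U310.Mers.gtau_fin hM.adapted hX z θ hθ hz hprof E h⟩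
  · intro hz0
    have h4 : ∀ (E : Set ℕ) (d : ℝ), Tendsto (fun n => L E n / Real.log n) atTop (𝓝 d) →
        ∀ᵐ ω ∂μ, Tendsto (fun n : ℕ => (N D {k | ω ∈ S k} E n : ℝ) / Real.log n) atTop
          (𝓝 (θ * Real.exp Real.eulerMascheroniConstant / Real.log Real.goldenRatio * d)) :=
      fun E d hd => Pool.Agent.U310.Mers.gdens hM.adapted hX z θ hθ hz hprof hz0 E d hd
    refine ⟨h4, ?_⟩
    filter_upwards [h4 Set.univ 1 Pool.Agent.U310.Mers.L_univ] with ω hω
    rw [mul_one] at hω
    refine hω.congr fun n => ?_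
    have : {p | p ≤ n ∧ p.Prime ∧ p ∈ Set.univ ∧ D p ∈ {k | ω ∈ S k}} =
        {p | p ≤ n ∧ p.Prime ∧ ω ∈ S (D p)} := by
      ext p
      constructor
      · rintro ⟨h1, h2, -, h3⟩
        exact ⟨h1, h2, h3⟩
      · rintro ⟨h1, h2, h3⟩
        exact ⟨h1, h2, trivial, h3⟩
    unfold N
    rw [this]
  · rw [V_eq]
    have hexp := Pool.Agent.U310.Mers.luc_expo
    -- `luc (2 ^ (k + 1))` is strictly increasing
    have hmono : StrictMono (fun k => Pool.Agent.U310.Mers.luc (2 ^ (k + 1))) := by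
      intro a b hab
      have h1 : 2 ^ (a + 1) < 2 ^ (b + 1) := Nat.pow_lt_pow_right (by norm_num) (by omega)
      have h2 : 2 ^ 1 ≤ 2 ^ (a + 1) := Nat.pow_le_pow_right (by norm_num) (by omega)
      have h3 := hexp.mono (a := 2 ^ (a + 1) - 2) (b := 2 ^ (b + 1) - 2) (by omega)
      simp only at h3
      rwa [show 2 ^ (a + 1) - 2 + 2 = 2 ^ (a + 1) by omega, show 2 ^ (b + 1) - 2 + 2 = 2 ^ (b + 1) by omega] at h3
    have hc := hexp.pos
    have hlow : ∀ᶠ k : ℕ in atTop, Real.log Real.goldenRatio * 2 ^ k ≤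
        Real.log (Pool.Agent.U310.Mers.luc (2 ^ (k + 1))) := by
      have h1 : ∀ᶠ p : ℕ in atTop, Real.log Real.goldenRatio / 2 <
          Real.log (Pool.Agent.U310.Mers.luc p) / p := hexp.lim.eventually (lt_mem_nhds (by linarith))
      have h2 : Tendsto (fun k : ℕ => 2 ^ (k + 1)) atTop atTop :=
        (tendsto_pow_atTop_atTop_of_one_lt (by norm_num : 1 < 2)).comp (tendsto_add_atTop_nat 1)
      filter_upwards [h2.eventually h1] with k hk
      have hpos : (0 : ℝ) < ((2 ^ (k + 1) : ℕ) : ℝ) := by positivity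
      rw [lt_div_iff₀ hpos] at hk
      have e : Real.log Real.goldenRatio / 2 * ((2 ^ (k + 1) : ℕ) : ℝ) = Real.log Real.goldenRatio * 2 ^ k := by
        push_cast
        ring
      rw [e] at hk
      exact hk.le
    have hs := Pool.Agent.U310.Mers.sparse_summable z θ hθ hz
      (fun k => Pool.Agent.U310.Mers.luc (2 ^ (k + 1))) hmono.tendsto_atTop _ hc hlow
    filter_upwards [Pool.Agent.U310.Mers.gsparse hM.adapted z hprof _ hmono hs] with ω hω
    have h3 : {k : ℕ | ω ∈ S (Pool.Agent.U310.Mers.luc (2 ^ k))} ⊆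
        {0} ∪ (fun k => k + 1) '' {k | ω ∈ S (Pool.Agent.U310.Mers.luc (2 ^ (k + 1)))} := by
      intro k hk
      rcases Nat.eq_zero_or_pos k with h0 | h0
      · left; exact h0
      · right
        refine ⟨k - 1, ?_, by show k - 1 + 1 = k; omega⟩
        show ω ∈ S (Pool.Agent.U310.Mers.luc (2 ^ (k - 1 + 1)))
        rw [show k - 1 + 1 = k by omega]
        exact hk
    exact ((Set.finite_singleton 0).union (hω.image _)).subset h3

end Pool.Agent.Results.MP_5893d7_nt.RandomSieveModels
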